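import Pool.Agent.W734.TWB.Stms

set_option autoImplicit false

/-! TWB-RIEM: Riemann sums over small cubes and the partition of the configuration space. -/

noncomputable section

namespace Pool.Agent.W271.TWB

open Pool.Agent.W734.TWB
open MeasureTheory Set Filter Metric

theorem mem_Ico_iff {l : ℝ} (hl : 0 < l) (t : ℝ) (z : ℤ) :
    t ∈ Set.Ico (l * (z : ℝ)) (l * (z : ℝ) + l) ↔ ⌊t / l⌋ = z := by
  rw [Int.floor_eq_iff, Set.mem_Ico, le_div_iff₀ hl, div_lt_iff₀ hl]
  constructor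
  · rintro ⟨h1, h2⟩
    constructor <;> linarith
  · rintro ⟨h1, h2⟩
    constructor <;> linarith

theorem part : S_PART := by
  intro l hl N f g hf hg h
  have hm : ∀ k : Fin N → (Fin 3 → ℤ), MeasurableSet (reg l k) := by
    intro k
    have : reg l k = ⋂ i, ⋂ a, (fun x : Cfg N => x i a) ⁻¹'
        (Set.Ico (l * (k i a : ℝ)) (l * (k i a : ℝ) + l)) := by
      ext x
      simp [reg]
    rw [this]
    refine MeasurableSet.iInter fun i => MeasurableSet.iInter fun a => ?_
    have hc : Continuous (fun x : Cfg N => x i a) := by fun_prop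
    exact hc.measurable measurableSet_Ico
  have hd : Pairwise (Function.onFun Disjoint fun k : Fin N → (Fin 3 → ℤ) => reg l k) := by
    intro k k' hk
    rw [Function.onFun, Set.disjoint_left]
    intro x h1 h2
    apply hk
    funext i a
    rw [← (mem_Ico_iff hl _ _).1 (h1 i a), ← (mem_Ico_iff hl _ _).1 (h2 i a)]
  have hu : ⋃ k : Fin N → (Fin 3 → ℤ), reg l k = univ := by
    rw [Set.eq_univ_iff_forall]
    intro x
    rw [mem_iUnion]
    exact ⟨fun i a => ⌊x i a / l⌋, fun i a => (mem_Ico_iff hl _ _).2 rfl⟩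
  have h1 := hasSum_integral_iUnion (μ := volume) (f := f) hm hd
    (by rw [hu]; exact hf.integrableOn)
  have h2 := hasSum_integral_iUnion (μ := volume) (f := g) hm hd
    (by rw [hu]; exact hg.integrableOn)
  rw [hu, setIntegral_univ] at h1 h2
  exact hasSum_le h h1 h2

theorem dd_lip {β γ ρm : ℝ} (hβ : 0 ≤ β) (hγ : 0 ≤ γ) {r s η : ℝ} (hr : 0 ≤ r) (hs : 0 ≤ s)
    (hrm : r ≤ ρm) (hη : 0 ≤ η) (h : r ≤ s + η) :
    dd β γ r ≤ dd β γ s + (β * ρm + γ * ρm ^ 2) * η := by
  unfold dd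
  have hm : 0 ≤ ρm := hr.trans hrm
  rcases le_total r s with h1 | h1
  · have h2 : r ^ 2 ≤ s ^ 2 := pow_le_pow_left₀ hr h1 2
    have h3 : r ^ 3 ≤ s ^ 3 := pow_le_pow_left₀ hr h1 3
    have h4 : 0 ≤ (β * ρm + γ * ρm ^ 2) * η := by positivity
    have h5 : β / 2 * r ^ 2 ≤ β / 2 * s ^ 2 := mul_le_mul_of_nonneg_left h2 (by positivity)
    have h6 : γ / 3 * r ^ 3 ≤ γ / 3 * s ^ 3 := mul_le_mul_of_nonneg_left h3 (by positivity)
    linarith
  · have hd : 0 ≤ r - s := by linarith
    have hd2 : r - s ≤ η := by linarith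
    have hsm : s ≤ ρm := h1.trans hrm
    have h2 : r ^ 2 - s ^ 2 ≤ η * (2 * ρm) := by
      have e : r ^ 2 - s ^ 2 = (r - s) * (r + s) := by ring
      rw [e]
      exact mul_le_mul hd2 (by linarith) (by positivity) hη
    have h3 : r ^ 3 - s ^ 3 ≤ η * (3 * ρm ^ 2) := by
      have e : r ^ 3 - s ^ 3 = (r - s) * (r ^ 2 + r * s + s ^ 2) := by ring
      rw [e]
      have e1 : r ^ 2 ≤ ρm ^ 2 := pow_le_pow_left₀ hr hrm 2
      have e2 : s ^ 2 ≤ ρm ^ 2 := pow_le_pow_left₀ hs hsm 2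
      have e3 : r * s ≤ ρm ^ 2 := by
        have := mul_le_mul hrm hsm hs hm
        rw [pow_two]; exact this
      exact mul_le_mul hd2 (by linarith) (by positivity) hη
    have h5 : β / 2 * (r ^ 2 - s ^ 2) ≤ β / 2 * (η * (2 * ρm)) :=
      mul_le_mul_of_nonneg_left h2 (by positivity)
    have h6 : γ / 3 * (r ^ 3 - s ^ 3) ≤ γ / 3 * (η * (3 * ρm ^ 2)) :=
      mul_le_mul_of_nonneg_left h3 (by positivity)
    linarith

theorem dd_nonneg {β γ : ℝ} (hβ : 0 ≤ β) (hγ : 0 ≤ γ) {r : ℝ} (hr : 0 ≤ r) : 0 ≤ dd β γ r := by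
  unfold dd; positivity

/-- the small cube. -/
def QQ (l : ℝ) (α : Fin 3 → ℤ) : Set E3 :=
  {x | ∀ a, x a ∈ Set.Ico (l * (α a : ℝ)) (l * (α a : ℝ) + l)}

theorem QQ_eq (l : ℝ) (α : Fin 3 → ℤ) : QQ l α = (WithLp.ofLp : E3 → (Fin 3 → ℝ)) ⁻¹'
    (pi univ fun a => Set.Ico (l * (α a : ℝ)) (l * (α a : ℝ) + l)) := by
  ext x
  simp [QQ]

theorem QQ_meas (l : ℝ) (α : Fin 3 → ℤ) : MeasurableSet (QQ l α) := by
  rw [QQ_eq]
  exact (PiLp.volume_preserving_ofLp (Fin 3)).measurable
    (MeasurableSet.univ_pi fun _ => measurableSet_Ico)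

theorem QQ_vol {l : ℝ} (hl : 0 < l) (α : Fin 3 → ℤ) :
    volume (QQ l α) = ENNReal.ofReal (l ^ 3) := by
  rw [QQ_eq, (PiLp.volume_preserving_ofLp (Fin 3)).measure_preimage
    (MeasurableSet.univ_pi fun _ => measurableSet_Ico).nullMeasurableSet, Real.volume_pi_Ico]
  simp only [add_sub_cancel_left, Finset.prod_const, Finset.card_univ, Fintype.card_fin]
  rw [ENNReal.ofReal_pow hl.le]

theorem norm_le_of_apply {x : E3} {c : ℝ} (hc : 0 ≤ c) (h : ∀ a, |x a| ≤ c) : ‖x‖ ≤ 2 * c := by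
  rw [EuclideanSpace.norm_eq, Real.sqrt_le_iff]
  refine ⟨by positivity, ?_⟩
  have h1 : ∑ i : Fin 3, ‖x i‖ ^ 2 ≤ ∑ _i : Fin 3, c ^ 2 := by
    refine Finset.sum_le_sum fun i _ => ?_
    exact pow_le_pow_left₀ (norm_nonneg _) (h i) 2
  rw [Finset.sum_const, Finset.card_univ, Fintype.card_fin] at h1
  refine h1.trans ?_
  rw [nsmul_eq_mul]
  push_cast
  nlinarith [sq_nonneg c]

theorem apply_le_norm (x : E3) (a : Fin 3) : |x a| ≤ ‖x‖ := by
  rw [EuclideanSpace.norm_eq]
  apply Real.le_sqrt_of_sq_le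
  have := Finset.single_le_sum (f := fun i => ‖x i‖ ^ 2) (fun i _ => by positivity)
    (Finset.mem_univ a)
  simpa only [Real.norm_eq_abs] using this

theorem riem : S_RIEM := by
  intro β γ hβ hγ ρ hρc hρs hρ0
  -- bounds
  obtain ⟨R, hR0, hR⟩ : ∃ R : ℝ, 0 ≤ R ∧ ∀ x, ρ x ≠ 0 → ‖x‖ ≤ R := by
    obtain ⟨R, hR⟩ := hρs.isCompact.isBounded.subset_closedBall (0 : E3)
    refine ⟨max R 0, le_max_right _ _, fun x hx => ?_⟩
    have h1 : x ∈ tsupport ρ := subset_tsupport _ hx
    have h2 := hR h1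
    rw [mem_closedBall, dist_zero_right] at h2
    exact h2.trans (le_max_left _ _)
  obtain ⟨B, hB⟩ := hρc.bounded_above_of_compact_support hρs
  have hB0 : 0 ≤ B := (norm_nonneg _).trans (hB 0)
  have hBle : ∀ x, ρ x ≤ B := fun x => (le_abs_self _).trans (hB x)
  set ρm : ℝ := B + 1 with hρm
  set M : ℝ := (2 * R + 3) ^ 3 with hM
  have hM0 : 0 ≤ M := by positivity
  set K : ℝ := β * ρm + γ * ρm ^ 2 with hK
  have hK0 : 0 ≤ K := by positivity
  refine ⟨M, ρm, hM0, by positivity, fun ε hε => ?_⟩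
  -- the modulus of continuity
  set η : ℝ := min 1 (ε / (2 * M * K + 1)) with hη
  have hη0 : 0 < η := lt_min one_pos (by positivity)
  have hη1 : η ≤ 1 := min_le_left _ _
  have hη2 : M * (K * (2 * η)) ≤ ε := by
    have h1 : η ≤ ε / (2 * M * K + 1) := min_le_right _ _
    rw [le_div_iff₀ (by positivity)] at h1
    nlinarith
  obtain ⟨δ, hδ0, hδ⟩ := Metric.uniformContinuous_iff.1
    (hρs.uniformContinuous_of_continuous hρc) η hη0
  refine ⟨min 1 (δ / 2), lt_min one_pos (by positivity), fun l hl hl0 => ?_⟩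
  have hl1 : l < 1 := hl0.trans_le (min_le_left _ _)
  have hlδ : 2 * l < δ := by
    have := hl0.trans_le (min_le_right _ _)
    linarith
  set n : ℤ := ⌊(R + 1) / l⌋ with hn
  have hn0 : 0 ≤ n := by
    rw [hn]
    exact Int.floor_nonneg.2 (by positivity)
  have hnle : (n : ℝ) * l ≤ R + 1 := by
    rw [← le_div_iff₀ hl]
    exact Int.floor_le _
  classical
  set 𝒜 : Finset (Fin 3 → ℤ) := Fintype.piFinset fun _ : Fin 3 => Finset.Icc (-n) n with hA
  have hmemA : ∀ α : Fin 3 → ℤ, α ∈ 𝒜 ↔ ∀ a, -n ≤ α a ∧ α a ≤ n := by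
    intro α
    rw [hA, Fintype.mem_piFinset]
    simp only [Finset.mem_Icc]
  set ρh : (Fin 3 → ℤ) → ℝ := fun α => if α ∈ 𝒜 then ρ (corner l α) + η else 0 with hρh
  have hcorner : ∀ (α : Fin 3 → ℤ) (a : Fin 3), corner l α a = l * (α a : ℝ) := by
    intro α a
    rfl
  -- points of the cubes are close to the corner
  have hclose : ∀ (α : Fin 3 → ℤ) (x : E3), x ∈ QQ l α → |ρ x - ρ (corner l α)| < η := by
    intro α x hx
    have h1 : dist x (corner l α) < δ := by
      rw [dist_eq_norm]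
      refine lt_of_le_of_lt (norm_le_of_apply hl.le fun a => ?_) hlδ
      have h2 := hx a
      have h3 : (x - corner l α) a = x a - l * (α a : ℝ) := by
        rw [PiLp.sub_apply, hcorner]
      rw [h3, abs_le]
      constructor
      · linarith [h2.1]
      · linarith [h2.2]
    have h2 := hδ h1
    rwa [Real.dist_eq] at h2
  have hout : ∀ (α : Fin 3 → ℤ) (x : E3), x ∈ QQ l α → α ∉ 𝒜 → ρ x = 0 := by
    intro α x hx hα
    by_contra hne
    apply hα
    rw [hmemA]
    intro a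
    have h1 := (apply_le_norm x a).trans (hR x hne)
    rw [abs_le] at h1
    have h2 := hx a
    constructor
    · rw [neg_le, hn, Int.le_floor, le_div_iff₀ hl]
      push_cast
      linarith [h2.2]
    · rw [hn, Int.le_floor, le_div_iff₀ hl]
      linarith [h2.1]
  have hρh0 : ∀ α, 0 ≤ ρh α := by
    intro α
    simp only [hρh]
    split_ifs
    · have := hρ0 (corner l α); linarith
    · exact le_rfl
  have hρhm : ∀ α, ρh α ≤ ρm := by
    intro α
    simp only [hρh]
    split_ifs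
    · have := hBle (corner l α); linarith
    · positivity
  have hM1 : 2 * R + 3 ≤ M := by
    rw [hM]
    have h1 : (1 : ℝ) ≤ 2 * R + 3 := by linarith
    nlinarith [sq_nonneg (2 * R + 3), mul_nonneg (by linarith : (0 : ℝ) ≤ 2 * R + 3)
      (mul_nonneg (by linarith : (0 : ℝ) ≤ 2 * R + 3 - 1) (by linarith : (0 : ℝ) ≤ 2 * R + 3 + 1))]
  have hcard : (𝒜.card : ℝ) * l ^ 3 ≤ M := by
    have h1 : (𝒜.card : ℝ) = (2 * (n : ℝ) + 1) ^ 3 := by
      rw [hA, Fintype.card_piFinset]
      simp only [Int.card_Icc, Finset.prod_const, Finset.card_univ, Fintype.card_fin]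
      have h2 : (((n + 1 - -n).toNat : ℕ) : ℤ) = 2 * n + 1 := by
        rw [Int.toNat_of_nonneg (by linarith)]
        ring
      have h3 : (((n + 1 - -n).toNat : ℕ) : ℝ) = 2 * (n : ℝ) + 1 := by exact_mod_cast h2
      push_cast
      rw [h3]
    rw [h1, ← mul_pow, hM]
    have hn0' : (0 : ℝ) ≤ n := by exact_mod_cast hn0
    refine pow_le_pow_left₀ (by positivity) ?_ 3
    nlinarith
  refine ⟨𝒜, ρh, hρh0, hρhm, fun α hα => ?_, fun α hα => ?_, fun α x hx => ?_, ?_, hcard⟩
  · simp only [hρh, if_neg hα]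
  · refine le_trans (norm_le_of_apply (c := R + 1) (by positivity) fun a => ?_) (by linarith)
    rw [hcorner, abs_mul, abs_of_pos hl]
    have h1 := (hmemA α).1 hα a
    have h2 : |(α a : ℝ)| ≤ n := by
      rw [abs_le]
      constructor
      · exact_mod_cast h1.1
      · exact_mod_cast h1.2
    have h3 := mul_le_mul_of_nonneg_left h2 hl.le
    linarith
  · by_cases hα : α ∈ 𝒜
    · simp only [hρh, if_pos hα]
      have := hclose α x hx
      rw [abs_lt] at this
      linarith [this.2]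
    · rw [hout α x hx hα]
      exact hρh0 α
  · -- the sum
    have hddc : Continuous (fun x => dd β γ (ρ x)) := by
      unfold dd
      fun_prop
    have hdds : HasCompactSupport (fun x => dd β γ (ρ x)) := by
      refine hρs.comp_left (g := dd β γ) ?_
      unfold dd
      norm_num
    have hddi : Integrable (fun x => dd β γ (ρ x)) := hddc.integrable_of_hasCompactSupport hdds
    have hvr : ∀ α, (volume : Measure E3).real (QQ l α) = l ^ 3 := by
      intro α
      rw [measureReal_def, QQ_vol hl, ENNReal.toReal_ofReal (by positivity)]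
    have hvne : ∀ α, volume (QQ l α) ≠ ⊤ := by
      intro α
      rw [QQ_vol hl]
      exact ENNReal.ofReal_ne_top
    have hone : ∀ α ∈ 𝒜, l ^ 3 * dd β γ (ρh α) ≤ (∫ x in QQ l α, dd β γ (ρ x))
        + l ^ 3 * (K * (2 * η)) := by
      intro α hα
      have h1 : ∫ x in QQ l α, dd β γ (ρh α) ≤ ∫ x in QQ l α, (dd β γ (ρ x) + K * (2 * η)) := by
        refine setIntegral_mono_on (integrableOn_const (hvne α)) ?_ (QQ_meas l α) ?_
        · exact hddi.integrableOn.add (integrableOn_const (hvne α))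
        · intro x hx
          refine dd_lip hβ hγ (hρh0 α) (hρ0 x) (hρhm α) (by positivity) ?_
          simp only [hρh, if_pos hα]
          have := hclose α x hx
          rw [abs_lt] at this
          linarith [this.1]
      rw [setIntegral_const, integral_add hddi.integrableOn (integrableOn_const (hvne α)),
        setIntegral_const, hvr, smul_eq_mul, smul_eq_mul] at h1
      exact h1
    have hdisj : Set.Pairwise (𝒜 : Set (Fin 3 → ℤ)) (Function.onFun Disjoint fun α => QQ l α) := by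
      intro α _ α' _ hne
      rw [Function.onFun, Set.disjoint_left]
      intro x h1 h2
      apply hne
      funext a
      rw [← (mem_Ico_iff hl _ _).1 (h1 a), ← (mem_Ico_iff hl _ _).1 (h2 a)]
    have hun : ∑ α ∈ 𝒜, ∫ x in QQ l α, dd β γ (ρ x) ≤ ∫ x, dd β γ (ρ x) := by
      rw [← integral_biUnion_finset 𝒜 (fun α _ => QQ_meas l α) hdisj
        (fun α _ => hddi.integrableOn)]
      exact setIntegral_le_integral hddi
        (Eventually.of_forall fun x => dd_nonneg hβ hγ (hρ0 x))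
    calc (∑ α ∈ 𝒜, l ^ 3 * dd β γ (ρh α))
        ≤ ∑ α ∈ 𝒜, ((∫ x in QQ l α, dd β γ (ρ x)) + l ^ 3 * (K * (2 * η))) :=
          Finset.sum_le_sum hone
      _ = (∑ α ∈ 𝒜, ∫ x in QQ l α, dd β γ (ρ x)) + (𝒜.card : ℝ) * l ^ 3 * (K * (2 * η)) := by
          rw [Finset.sum_add_distrib, Finset.sum_const, nsmul_eq_mul]
          ring
      _ ≤ (∫ x, dd β γ (ρ x)) + M * (K * (2 * η)) := by
          refine add_le_add hun (mul_le_mul_of_nonneg_right hcard (by positivity))
      _ ≤ (∫ x, dd β γ (ρ x)) + ε := by linarith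

end Pool.Agent.W271.TWB
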